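import Pool.Agent.Helper38.IA.StN

set_option autoImplicit false

namespace Pool.Agent.Helper39.IA38

open Finset Pool.Agent.Helper93.IA Pool.Agent.Helper17.IAN Pool.Agent.Helper38.IA

private theorem two {I : Type} [DecidableEq I] (i0 : I) (p : I → Prop)
    (hp : ∀ i i', p i → p i' → i = i') : ∃ S : Finset I, S.card ≤ 2 ∧ ∀ i, i = i0 ∨ p i → i ∈ S := by
  by_cases h : ∃ i, p i
  · obtain ⟨i1, h1⟩ := h
    refine ⟨{i0, i1}, card_le_two, fun i hi => ?_⟩
    rcases hi with rfl | hi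
    · simp
    · rw [hp i i1 hi h1]
      simp
  · refine ⟨{i0}, by simp, fun i hi => ?_⟩
    rcases hi with rfl | hi
    · simp
    · exact absurd ⟨i, hi⟩ h

theorem hNLC : StNCH → StNLC := by
  intro hNCH α β γ _ _ _ _ _ n hα hβ
  refine ⟨fun c => ⟨∅, by simp, ?_⟩, fun c => ⟨∅, by simp, ?_⟩,
    fun a => ⟨(univ : Finset β).map ⟨fun b => (a, b), fun b b' h => (Prod.mk.inj h).2⟩, ?_, ?_⟩⟩
  · rintro σ ⟨a0, b0⟩
    refine ⟨fun u => ?_, fun _ => ⟨{c}, by simp, fun u i hi => ?_⟩⟩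
    · obtain ⟨_, h2, _, h4, _, _, _⟩ := hNCH α β γ σ a0 b0 u
      obtain ⟨S, hS, hS'⟩ := two b0
        (fun b => used (Function.update σ (a0, b0) none) a0 b u) h4
      refine ⟨S, hS, fun i hi => hS' i ?_⟩
      exact (h2 i c (fun h => hi (not_congr h))).2
    · obtain ⟨_, h2, _⟩ := hNCH α β γ σ a0 b0 u
      have h := (h2 i c (fun h => hi (not_congr h))).1
      simp [h]
  · rintro σ ⟨a0, b0⟩
    refine ⟨fun u => ?_, fun _ => ⟨{c}, by simp, fun u i hi => ?_⟩⟩
    · obtain ⟨_, _, h3, _, h5, _, _⟩ := hNCH α β γ σ a0 b0 u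
      obtain ⟨S, hS, hS'⟩ := two a0
        (fun a => used (Function.update σ (a0, b0) none) a b0 u) h5
      refine ⟨S, hS, fun i hi => hS' i ?_⟩
      exact (h3 c i (fun h => hi (not_congr h))).2
    · obtain ⟨_, _, h3, _⟩ := hNCH α β γ σ a0 b0 u
      have h := (h3 c i (fun h => hi (not_congr h))).1
      simp [h]
  · rw [card_map, card_univ, hβ]
    omega
  · rintro σ ⟨a0, b0⟩
    refine ⟨fun u => ⟨{u}, by simp, fun i hi => ?_⟩, fun hL => ⟨(σ (a, b0)).toFinset, ?_,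
      fun u i hi => ?_⟩⟩
    · obtain ⟨_, _, h3, _⟩ := hNCH α β γ σ a0 b0 u
      have h := (h3 i a (fun h => hi (not_congr h))).1
      simp [h]
    · cases σ (a, b0) <;> simp
    · obtain ⟨_, _, h3, _, _, _, h7⟩ := hNCH α β γ σ a0 b0 u
      have h := (h3 i a (fun h => hi (not_congr h))).2
      rcases h with rfl | h
      · exact absurd (by simp) hL
      · rw [(h7 a h).2]
        simp

end Pool.Agent.Helper39.IA38

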